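import Pool.Agent.Helper20.FR.St

/-!
# Module DI of project R20
-/

set_option autoImplicit false

open Topology Filter
open Pool.Agent.Helper20.FA
open Pool.Agent.Helper20.FR

namespace Pool.Agent.Helper45.R20

theorem hDI (hHB : StHB) : StDI := by
  intro E _ _ x hx F C hF hseq η hη
  by_cases hn : ∃ n : ℕ, ∀ l : E →L[ℂ] ℂ,
      ‖F l‖ ≤ η * ‖l‖ + (n : ℝ) * ∑ i : Fin n, ‖l (x i)‖
  · obtain ⟨n, hn⟩ := hn
    exact hHB E F n (fun i => x i) η n hη.le (Nat.cast_nonneg n) hn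
  · exfalso
    push Not at hn
    have h1 : ∀ n : ℕ, ∃ l : E →L[ℂ] ℂ, ‖l‖ = 1 ∧
        η + (n : ℝ) * ∑ i : Fin n, ‖l (x i)‖ < ‖F l‖ := by
      intro n
      obtain ⟨l, hl⟩ := hn n
      have hs : 0 ≤ (n : ℝ) * ∑ i : Fin n, ‖l (x i)‖ :=
        mul_nonneg (Nat.cast_nonneg n) (Finset.sum_nonneg fun i _ => norm_nonneg _)
      have hpos : 0 < ‖l‖ := by
        rcases (norm_nonneg l).lt_or_eq with h | h
        · exact h
        · exfalso
          have h2 := hF l
          rw [← h] at h2 hl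
          rw [mul_zero] at h2 hl
          linarith
      have hne : ‖l‖ ≠ 0 := hpos.ne'
      have hc : ‖((‖l‖⁻¹ : ℝ) : ℂ)‖ = ‖l‖⁻¹ := by
        rw [Complex.norm_real, Real.norm_eq_abs, abs_of_pos (inv_pos.mpr hpos)]
      refine ⟨((‖l‖⁻¹ : ℝ) : ℂ) • l, ?_, ?_⟩
      · rw [norm_smul, hc, inv_mul_cancel₀ hne]
      · have h3 : ∀ i : Fin n, ‖(((‖l‖⁻¹ : ℝ) : ℂ) • l) (x i)‖ = ‖l‖⁻¹ * ‖l (x i)‖ := by
          intro i
          rw [ContinuousLinearMap.smul_apply, norm_smul, hc]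
        rw [Finset.sum_congr rfl fun i _ => h3 i, ← Finset.mul_sum, map_smul, norm_smul, hc]
        have h4 : ‖l‖⁻¹ * (η * ‖l‖ + (n : ℝ) * ∑ i : Fin n, ‖l (x i)‖) < ‖l‖⁻¹ * ‖F l‖ :=
          mul_lt_mul_of_pos_left hl (inv_pos.mpr hpos)
        have h5 : ‖l‖⁻¹ * (η * ‖l‖ + (n : ℝ) * ∑ i : Fin n, ‖l (x i)‖) =
            η + (n : ℝ) * (‖l‖⁻¹ * ∑ i : Fin n, ‖l (x i)‖) := by
          field_simp
        rw [← h5]
        exact h4
    choose l hl1 hl2 using h1
    have hC : ∀ n, ‖F (l n)‖ ≤ C := by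
      intro n
      have h := hF (l n)
      rw [hl1, mul_one] at h
      exact h
    have hsmall : ∀ n k : ℕ, k < n → (n : ℝ) * ‖l n (x k)‖ ≤ C := by
      intro n k hk
      have h1 : ‖l n (x k)‖ ≤ ∑ i : Fin n, ‖l n (x i)‖ :=
        Finset.single_le_sum (f := fun i : Fin n => ‖l n (x i)‖) (fun i _ => norm_nonneg _)
          (Finset.mem_univ (⟨k, hk⟩ : Fin n))
      have h2 := hl2 n
      have h3 := hC n
      have h4 : (n : ℝ) * ‖l n (x k)‖ ≤ (n : ℝ) * ∑ i : Fin n, ‖l n (x i)‖ :=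
        mul_le_mul_of_nonneg_left h1 (Nat.cast_nonneg n)
      linarith
    have ht : ∀ z, Tendsto (fun j => l j z) atTop (𝓝 0) := by
      intro z
      rw [Metric.tendsto_atTop]
      intro ε hε
      obtain ⟨k, hk⟩ := hx z (ε / 2) (by linarith)
      obtain ⟨m, hm⟩ := exists_nat_gt (2 * C / ε)
      refine ⟨max m (k + 1), fun n hn => ?_⟩
      rw [dist_zero_right]
      have hnm : m ≤ n := le_trans (le_max_left _ _) hn
      have hnk : k < n := lt_of_lt_of_le (Nat.lt_succ_self k) (le_trans (le_max_right _ _) hn)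
      have h1 : ‖l n (z - x k)‖ ≤ ‖z - x k‖ := by
        have h := (l n).le_opNorm (z - x k)
        rw [hl1, one_mul] at h
        exact h
      have h2 : l n z = l n (z - x k) + l n (x k) := by
        rw [map_sub]
        ring
      have h3 : ‖l n z‖ ≤ ‖l n (z - x k)‖ + ‖l n (x k)‖ := by
        rw [h2]
        exact norm_add_le _ _
      have hnpos : (0 : ℝ) < n := by
        exact_mod_cast lt_of_le_of_lt (Nat.zero_le k) hnk
      have h4 : 2 * C / ε < n := lt_of_lt_of_le hm (by exact_mod_cast hnm)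
      rw [div_lt_iff₀ hε] at h4
      have h5 := hsmall n k hnk
      have h6 : ‖l n (x k)‖ < ε / 2 := by
        by_contra h7
        push Not at h7
        have h8 : (n : ℝ) * (ε / 2) ≤ (n : ℝ) * ‖l n (x k)‖ :=
          mul_le_mul_of_nonneg_left h7 hnpos.le
        linarith
      linarith
    have hlim := hseq l (fun j => (hl1 j).le) ht
    rw [Metric.tendsto_atTop] at hlim
    obtain ⟨N, hN⟩ := hlim η hη
    have h9 := hN N le_rfl
    rw [dist_zero_right] at h9
    have h10 := hl2 N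
    have hs : 0 ≤ (N : ℝ) * ∑ i : Fin N, ‖l N (x i)‖ :=
      mul_nonneg (Nat.cast_nonneg N) (Finset.sum_nonneg fun i _ => norm_nonneg _)
    linarith

end Pool.Agent.Helper45.R20
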